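import Pool.Agent.L5helper61.DC.Roots
import Pool.Agent.L5helper54.DC.SigDeriv

/-! The explicit nondegenerate critical points of one block. -/

set_option autoImplicit false

namespace L5helper61.DC

open Finset MvPolynomial L5helper59.DC

theorem block_points (q : ℕ) [NeZero q] (hq : 2 ≤ q) :
    ∃ B : Finset ℕ, B.card ≤ (q.factorial) ^ 2 * (2 * q) ∧ ∀ n : ℕ, 2 ≤ n → n ∉ B →
      ∃ (c : (Fin n × Typ q) × (Fin 2 × ZMod q) → ℂ)
        (S : Finset ((Fin n × Typ q) × (Fin 2 × ZMod q) → ℂ)),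
        S.card = ((q.factorial) ^ 2).factorial ^ n ∧
        (∀ p ∈ S, ∀ v, eval p (pderiv v (sig (q + 1) (gen (Fin n × Typ q) (Fin 2 × ZMod q)))) =
          c v) ∧
        (∀ p ∈ S, ∀ z : (Fin n × Typ q) × (Fin 2 × ZMod q) → ℂ,
          (∀ v, ∑ v', z v' * eval p (pderiv v' (pderiv v
            (sig (q + 1) (gen (Fin n × Typ q) (Fin 2 × ZMod q))))) = 0) → z = 0) :=
  block_points_of (fun r p i j => L5helper54.DC.eval_pderiv_sig r p i j)
    (fun r p i k j l => L5helper54.DC.eval_pderiv_pderiv_sig r p i k j l) q hq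

end L5helper61.DC
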