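import Pool.Agent.L5helper59.DC.Defs

/-! Elementary symmetric functions of families, and squarefree coefficients. -/

set_option autoImplicit false
set_option linter.unusedSectionVars false

namespace L5helper61.DC

open Finset MvPolynomial L5helper59.DC

section es

variable {ι R : Type*} [DecidableEq ι] [CommRing R]

/-- the elementary symmetric function of the family `f` on `T` -/
def es (f : ι → R) (T : Finset ι) (b : ℕ) : R := ∑ S ∈ powersetCard b T, ∏ i ∈ S, f i

theorem es_zero (f : ι → R) (T : Finset ι) : es f T 0 = 1 := by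
  simp [es]

theorem es_succ (f : ι → R) {T : Finset ι} {i : ι} (hi : i ∈ T) (b : ℕ) :
    es f T (b + 1) = es f (T.erase i) (b + 1) + f i * es f (T.erase i) b := by
  unfold es
  conv_lhs => rw [← Finset.insert_erase hi]
  rw [Finset.powersetCard_succ_insert (Finset.notMem_erase i T), Finset.sum_union, Finset.mul_sum,
    Finset.sum_image]
  · congr 1
    refine Finset.sum_congr rfl fun S hS => ?_
    rw [Finset.prod_insert]
    intro h
    exact Finset.notMem_erase i T ((Finset.mem_powersetCard.1 hS).1 h)
  · intro S hS S' hS' h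
    have h1 : i ∉ S := fun h => Finset.notMem_erase i T ((Finset.mem_powersetCard.1 hS).1 h)
    have h2 : i ∉ S' := fun h => Finset.notMem_erase i T ((Finset.mem_powersetCard.1 hS').1 h)
    have h3 := congrArg (fun U => U.erase i) h
    simp only [Finset.erase_insert h1, Finset.erase_insert h2] at h3
    exact h3
  · rw [Finset.disjoint_left]
    intro S hS hS'
    obtain ⟨S1, _, rfl⟩ := Finset.mem_image.1 hS'
    exact Finset.notMem_erase i T ((Finset.mem_powersetCard.1 hS).1 (Finset.mem_insert_self _ _))

variable [Fintype ι]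

theorem es_comp (f : ι → R) (σ : Equiv.Perm ι) (b : ℕ) :
    es (fun i => f (σ i)) univ b = es f univ b := by
  unfold es
  refine Finset.sum_bij' (fun S _ => S.map σ.toEmbedding) (fun S _ => S.map σ.symm.toEmbedding)
    ?_ ?_ ?_ ?_ ?_
  · intro S hS
    rw [Finset.mem_powersetCard] at hS ⊢
    exact ⟨Finset.subset_univ _, by rw [Finset.card_map]; exact hS.2⟩
  · intro S hS
    rw [Finset.mem_powersetCard] at hS ⊢
    exact ⟨Finset.subset_univ _, by rw [Finset.card_map]; exact hS.2⟩
  · intro S _
    ext x
    simp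
  · intro S _
    ext x
    simp
  · intro S _
    rw [Finset.prod_map]
    rfl

theorem es_mul (f : ι → R) (z : R) (b : ℕ) : es (fun i => z * f i) univ b = z ^ b * es f univ b := by
  unfold es
  rw [Finset.mul_sum]
  refine Finset.sum_congr rfl fun S hS => ?_
  rw [Finset.prod_mul_distrib, Finset.prod_const, (Finset.mem_powersetCard.1 hS).2]

theorem es_eq_zero [IsDomain R] {f : ι → R} {z : R} (σ : Equiv.Perm ι) (hσ : ∀ i, f (σ i) = z * f i)
    {b : ℕ} (hb : z ^ b ≠ 1) : es f univ b = 0 := by
  have h1 := es_comp f σ b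
  simp only [hσ] at h1
  rw [es_mul] at h1
  have h2 : (z ^ b - 1) * es f univ b = 0 := by
    rw [sub_mul, one_mul, h1, sub_self]
  rcases mul_eq_zero.1 h2 with h | h
  · exact absurd (sub_eq_zero.1 h) hb
  · exact h

variable {f : ι → R} {q : ℕ} (h0 : ∀ b, 0 < b → b < q → es f univ b = 0)

include h0

theorem es_erase {b : ℕ} (hb : b < q) (i : ι) : es f (univ.erase i) b = (-f i) ^ b := by
  induction b with
  | zero => rw [es_zero, pow_zero]
  | succ b ih =>
    have h1 := es_succ f (Finset.mem_univ i) b
    rw [h0 _ (Nat.succ_pos b) hb, ih (by omega)] at h1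
    rw [pow_succ', neg_mul]
    exact eq_neg_of_add_eq_zero_left h1.symm

theorem es_erase_q (hq : 1 ≤ q) (i : ι) : es f (univ.erase i) q = es f univ q + (-f i) ^ q := by
  obtain ⟨b, rfl⟩ := Nat.exists_eq_succ_of_ne_zero (show q ≠ 0 by omega)
  have h1 := es_succ f (Finset.mem_univ i) b
  rw [es_erase h0 (Nat.lt_succ_self b) i] at h1
  rw [Nat.succ_eq_add_one, h1, pow_succ' (-f i) b]
  ring

theorem es_erase_erase {b : ℕ} (hb : b < q) {i k : ι} (hik : k ≠ i) :
    es f ((univ.erase i).erase k) b = ∑ u ∈ range (b + 1), (-f k) ^ u * (-f i) ^ (b - u) := by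
  induction b with
  | zero => simp [es_zero]
  | succ b ih =>
    have h1 := es_succ f (Finset.mem_erase.2 ⟨hik, Finset.mem_univ k⟩ : k ∈ univ.erase i) b
    rw [es_erase h0 hb i, ih (by omega)] at h1
    rw [Finset.sum_range_succ']
    have h2 : ∑ u ∈ range (b + 1), (-f k) ^ (u + 1) * (-f i) ^ (b + 1 - (u + 1)) =
        -f k * ∑ u ∈ range (b + 1), (-f k) ^ u * (-f i) ^ (b - u) := by
      rw [Finset.mul_sum]
      refine Finset.sum_congr rfl fun u _ => ?_
      rw [Nat.add_sub_add_right, pow_succ' (-f k) u]
      ring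
    rw [h2, pow_zero, one_mul, Nat.sub_zero, h1]
    ring

end es

section sqf

variable {γ : Type*} [Fintype γ] [DecidableEq γ] {R : Type*} [CommRing R]

/-- the squarefree monomial -/
noncomputable def mon (C : Finset γ) : γ →₀ ℕ := ∑ j ∈ C, Finsupp.single j 1

omit [Fintype γ] in
theorem mon_apply (C : Finset γ) (j : γ) : mon C j = if j ∈ C then 1 else 0 := by
  rw [mon, Finsupp.finsetSum_apply]
  simp [Finsupp.single_apply]

omit [Fintype γ] in
theorem mem_support_mon (C : Finset γ) (j : γ) : j ∈ (mon C).support ↔ j ∈ C := by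
  rw [Finsupp.mem_support_iff, mon_apply]
  simp

omit [Fintype γ] in
theorem mon_sub (C : Finset γ) {j : γ} (hj : j ∈ C) :
    mon C - Finsupp.single j 1 = mon (C.erase j) := by
  ext l
  rw [Finsupp.tsub_apply, mon_apply, mon_apply, Finsupp.single_apply]
  by_cases h : j = l
  · subst h
    simp [hj]
  · simp [h, Finset.mem_erase, Ne.symm h]

omit [Fintype γ] in
theorem coeff_X_mul_mon (C : Finset γ) (j : γ) (P : MvPolynomial γ R) :
    coeff (mon C) (X j * P) = if j ∈ C then coeff (mon (C.erase j)) P else 0 := by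
  rw [coeff_X_mul']
  by_cases h : j ∈ C
  · rw [if_pos ((mem_support_mon C j).2 h), if_pos h, mon_sub C h]
  · rw [if_neg (fun h' => h ((mem_support_mon C j).1 h')), if_neg h]

theorem coeff_lin_pow (a : γ → R) (k : ℕ) (C : Finset γ) (hC : C.card = k) :
    coeff (mon C) (lin a ^ k) = (k.factorial : R) * ∏ c ∈ C, a c := by
  induction k generalizing C with
  | zero =>
    rw [Finset.card_eq_zero] at hC
    subst hC
    simp [mon]
  | succ k ih =>
    have h2 : lin a ^ (k + 1) = ∑ j, MvPolynomial.C (a j) * X j * lin a ^ k := by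
      rw [pow_succ']
      exact Finset.sum_mul _ _ _
    rw [h2, coeff_sum]
    have h1 : ∀ j, coeff (mon C) (MvPolynomial.C (a j) * X j * lin a ^ k) =
        if j ∈ C then (k.factorial : R) * ∏ c ∈ C, a c else 0 := by
      intro j
      rw [mul_assoc, coeff_C_mul, coeff_X_mul_mon]
      split_ifs with h
      · rw [ih (C.erase j) (by rw [Finset.card_erase_of_mem h, hC]; rfl),
          ← Finset.mul_prod_erase C a h]
        ring
      · rw [mul_zero]
    rw [Finset.sum_congr rfl fun j _ => h1 j, Finset.sum_ite_mem, Finset.univ_inter,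
      Finset.sum_const, hC, nsmul_eq_mul, Nat.factorial_succ]
    push_cast
    ring

/-- the sum of the coefficients of the squarefree monomials of degree `r` in the variables of `T` -/
noncomputable def sqT (T : Finset γ) (r : ℕ) (P : MvPolynomial γ R) : R :=
  ∑ C ∈ powersetCard r T, coeff (mon C) P

theorem sqf_eq (r : ℕ) (P : MvPolynomial γ R) : sqf r P = sqT univ r P := rfl

omit [Fintype γ] in
theorem sqT_add (T : Finset γ) (r : ℕ) (P Q : MvPolynomial γ R) :
    sqT T r (P + Q) = sqT T r P + sqT T r Q := by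
  simp only [sqT, coeff_add, Finset.sum_add_distrib]

omit [Fintype γ] in
theorem sqT_C_mul (T : Finset γ) (r : ℕ) (c : R) (P : MvPolynomial γ R) :
    sqT T r (C c * P) = c * sqT T r P := by
  simp only [sqT, coeff_C_mul, Finset.mul_sum]

omit [Fintype γ] in
theorem sqT_X_mul (T : Finset γ) (r : ℕ) (j : γ) (P : MvPolynomial γ R) :
    sqT T (r + 1) (X j * P) = if j ∈ T then sqT (T.erase j) r P else 0 := by
  unfold sqT
  simp only [coeff_X_mul_mon]
  split_ifs with hj
  · rw [← Finset.sum_filter]
    refine Finset.sum_bij' (fun C _ => C.erase j) (fun C _ => insert j C) ?_ ?_ ?_ ?_ ?_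
    · intro C hC
      rw [Finset.mem_filter, Finset.mem_powersetCard] at hC
      rw [Finset.mem_powersetCard]
      refine ⟨Finset.erase_subset_erase j hC.1.1, ?_⟩
      rw [Finset.card_erase_of_mem hC.2, hC.1.2]
      rfl
    · intro C hC
      rw [Finset.mem_powersetCard] at hC
      have hjC : j ∉ C := fun h => Finset.notMem_erase j T (hC.1 h)
      rw [Finset.mem_filter, Finset.mem_powersetCard]
      refine ⟨⟨?_, ?_⟩, Finset.mem_insert_self _ _⟩
      · intro x hx
        rcases Finset.mem_insert.1 hx with rfl | hx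
        · exact hj
        · exact Finset.mem_of_mem_erase (hC.1 hx)
      · rw [Finset.card_insert_of_notMem hjC, hC.2]
    · intro C hC
      rw [Finset.mem_filter] at hC
      exact Finset.insert_erase hC.2
    · intro C hC
      rw [Finset.mem_powersetCard] at hC
      exact Finset.erase_insert fun h => Finset.notMem_erase j T (hC.1 h)
    · intro C hC
      rfl
  · refine Finset.sum_eq_zero fun C hC => ?_
    rw [if_neg]
    intro h
    exact hj ((Finset.mem_powersetCard.1 hC).1 h)

theorem sqT_lin_pow (T : Finset γ) (a : γ → R) (k : ℕ) :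
    sqT T k (lin a ^ k) = (k.factorial : R) * es a T k := by
  unfold sqT es
  rw [Finset.mul_sum]
  refine Finset.sum_congr rfl fun C hC => ?_
  exact coeff_lin_pow a k C (Finset.mem_powersetCard.1 hC).2

end sqf

end L5helper61.DC
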