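import Pool.Agent.L5helper61.DC.Es

/-! The kernel values on roots of unity. -/

set_option autoImplicit false
set_option linter.unusedSectionVars false

namespace L5helper61.DC

open Finset MvPolynomial L5helper59.DC

variable {q : ℕ} [NeZero q]

/-- the row vector of a type -/
noncomputable def vec (t : Typ q) : Fin 2 × ZMod q → ℂ := fun c => ZMod.stdAddChar (t c.1 c.2)

/-- the root of unity -/
noncomputable def zt (q : ℕ) [NeZero q] : ℂ := ZMod.stdAddChar (1 : ZMod q)

theorem char_add_one (x : ZMod q) : (ZMod.stdAddChar (x + 1) : ℂ) = zt q * ZMod.stdAddChar x := by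
  rw [AddChar.map_add_eq_mul, zt, mul_comm]

theorem char_ne (x : ZMod q) : (ZMod.stdAddChar x : ℂ) ≠ 0 := by
  intro h
  have h1 : (ZMod.stdAddChar (x + -x) : ℂ) = 1 := by
    rw [add_neg_cancel, AddChar.map_zero_eq_one]
  rw [AddChar.map_add_eq_mul, h, zero_mul] at h1
  exact zero_ne_one h1

theorem char_pow (x : ZMod q) (b : ℕ) : (ZMod.stdAddChar x : ℂ) ^ b = ZMod.stdAddChar (b • x) := by
  rw [AddChar.map_nsmul_eq_pow]

theorem char_pow_q (x : ZMod q) : (ZMod.stdAddChar x : ℂ) ^ q = 1 := by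
  rw [char_pow, nsmul_eq_mul, CharP.cast_eq_zero, zero_mul, AddChar.map_zero_eq_one]

theorem zt_pow {b : ℕ} (h0 : 0 < b) (hb : b < q) : zt q ^ b ≠ 1 := by
  rw [zt, char_pow, ← AddChar.map_zero_eq_one (ZMod.stdAddChar (N := q))]
  intro h
  have h1 := ZMod.injective_stdAddChar h
  rw [nsmul_eq_mul, mul_one, ZMod.natCast_eq_zero_iff] at h1
  exact absurd (Nat.le_of_dvd h0 h1) (by omega)

theorem vec_inj : Function.Injective (vec (q := q)) := by
  intro t t' h
  funext i
  ext1 l
  exact ZMod.injective_stdAddChar (congrFun h (i, l))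

/-- multiplication of a type by the root of unity -/
def shift (t : Typ q) : Typ q := fun i => (t i).trans (Equiv.addRight 1)

theorem vec_shift (t : Typ q) (c : Fin 2 × ZMod q) : vec (shift t) c = zt q * vec t c :=
  char_add_one _

/-- the permutation of the types given by `shift` -/
def shiftE (q : ℕ) [NeZero q] : Equiv.Perm (Typ q) :=
  Equiv.piCongrRight fun _ => (Equiv.mulLeft (Equiv.addRight (1 : ZMod q)))

theorem shiftE_apply (t : Typ q) : shiftE q t = shift t := rfl

/-- the permutation of the columns -/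
def colE (t : Typ q) : Equiv.Perm (Fin 2 × ZMod q) where
  toFun c := (c.1, (t c.1).symm (t c.1 c.2 + 1))
  invFun c := (c.1, (t c.1).symm (t c.1 c.2 - 1))
  left_inv c := by simp
  right_inv c := by simp

theorem vec_colE (t : Typ q) (c : Fin 2 × ZMod q) : vec t (colE t c) = zt q * vec t c := by
  show ZMod.stdAddChar (t c.1 ((t c.1).symm (t c.1 c.2 + 1))) = _
  rw [Equiv.apply_symm_apply]
  exact char_add_one _

theorem es_vec (t : Typ q) (b : ℕ) (h0 : 0 < b) (hb : b < q) : es (vec t) univ b = 0 :=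
  es_eq_zero (colE t) (vec_colE t) (zt_pow h0 hb)

/-- the permutation of the columns from `t` to the identity type -/
def colT (t : Typ q) : Equiv.Perm (Fin 2 × ZMod q) where
  toFun c := (c.1, t c.1 c.2)
  invFun c := (c.1, (t c.1).symm c.2)
  left_inv c := by simp
  right_inv c := by simp

theorem es_vec_eq (t : Typ q) (b : ℕ) : es (vec t) univ b = es (vec (1 : Typ q)) univ b := by
  rw [← es_comp (vec (1 : Typ q)) (colT t)]
  rfl

theorem vec_pow (t : Typ q) (c : Fin 2 × ZMod q) : vec t c ^ q = 1 := char_pow_q _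

theorem vec_ne (t : Typ q) (c : Fin 2 × ZMod q) : vec t c ≠ 0 := char_ne _

/-- the diagonal term of the gradient -/
theorem grad_diag (hq : 1 ≤ q) (t : Typ q) (j : Fin 2 × ZMod q) :
    sqT univ (q + 1) (X j * (-lin (vec t)) ^ q) =
      (-1) ^ q * ((q.factorial : ℂ) * (es (vec (1 : Typ q)) univ q + (-1) ^ q)) := by
  have h1 : (-lin (vec t)) ^ q = C ((-1 : ℂ) ^ q) * lin (vec t) ^ q := by
    rw [neg_pow, map_pow, map_neg, map_one]
  rw [h1, mul_left_comm, sqT_C_mul, sqT_X_mul, if_pos (Finset.mem_univ j), sqT_lin_pow,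
    es_erase_q (es_vec t) hq, es_vec_eq, neg_pow (vec t j), vec_pow, mul_one]

/-- the kernel -/
noncomputable def ker (t t' : Typ q) (j l : Fin 2 × ZMod q) : ℂ :=
  sqT univ (q + 1) (X l * (X j * ∑ u ∈ range q, (-lin (vec t')) ^ u * (-lin (vec t)) ^ (q - 1 - u)))

theorem ker_diag (hq : 1 ≤ q) (t : Typ q) (j l : Fin 2 × ZMod q) :
    ker t t j l = (q : ℂ) * (-1) ^ (q - 1) * (if l = j then 0 else
      ((q - 1).factorial : ℂ) *
        ∑ u ∈ range q, (-vec t l) ^ u * (-vec t j) ^ (q - 1 - u)) := by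
  have h1 : ∑ u ∈ range q, (-lin (vec t)) ^ u * (-lin (vec t)) ^ (q - 1 - u) =
      C ((q : ℂ) * (-1) ^ (q - 1)) * lin (vec t) ^ (q - 1) := by
    have h2 : ∀ u ∈ range q, (-lin (vec t)) ^ u * (-lin (vec t)) ^ (q - 1 - u) =
        (-lin (vec t)) ^ (q - 1) := by
      intro u hu
      rw [← pow_add]
      congr 1
      have := Finset.mem_range.1 hu
      omega
    rw [Finset.sum_congr rfl h2, Finset.sum_const, Finset.card_range, nsmul_eq_mul, neg_pow,
      C_mul, map_pow, map_neg, map_one, map_natCast]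
    ring
  rw [ker, h1]
  obtain ⟨b, hb⟩ := Nat.exists_eq_succ_of_ne_zero (show q ≠ 0 by omega)
  have hb' : q = b + 1 := hb
  have h3 : X l * (X j * (C ((q : ℂ) * (-1) ^ (q - 1)) * lin (vec t) ^ (q - 1))) =
      C ((q : ℂ) * (-1) ^ (q - 1)) * (X l * (X j * lin (vec t) ^ (q - 1))) := by ring
  rw [h3, sqT_C_mul, sqT_X_mul, if_pos (Finset.mem_univ l)]
  congr 1
  have h4 : sqT (univ.erase l) q (X j * lin (vec t) ^ (q - 1)) =
      sqT (univ.erase l) (q - 1 + 1) (X j * lin (vec t) ^ (q - 1)) := by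
    rw [Nat.sub_add_cancel hq]
  rw [h4, sqT_X_mul]
  by_cases hlj : l = j
  · subst hlj
    rw [if_neg (Finset.notMem_erase l univ), if_pos rfl]
  · rw [if_pos (Finset.mem_erase.2 ⟨Ne.symm hlj, Finset.mem_univ j⟩), if_neg hlj, sqT_lin_pow]
    congr 1
    have h5 := es_erase_erase (es_vec t) (show q - 1 < q by omega) (i := l) (k := j) (Ne.symm hlj)
    rw [h5, Nat.sub_add_cancel hq, ← Finset.sum_range_reflect]
    refine Finset.sum_congr rfl fun u hu => ?_
    have := Finset.mem_range.1 hu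
    rw [mul_comm]
    congr 2
    omega

theorem ker_diag_ne (hq : 1 ≤ q) (t : Typ q) {j l : Fin 2 × ZMod q} (h : vec t l ≠ vec t j) :
    ker t t j l = 0 := by
  rw [ker_diag hq, if_neg (fun h' => h (by rw [h']))]
  have h1 := geom_sum₂_mul (-vec t l) (-vec t j) q
  have h2 : (-vec t l) ^ q - (-vec t j) ^ q = 0 := by
    rw [neg_pow, neg_pow (vec t j), vec_pow, vec_pow, sub_self]
  rw [h2] at h1
  have h3 : -vec t l - -vec t j ≠ 0 := by
    intro h4
    apply h
    have : vec t j - vec t l = 0 := by rw [← h4]; ring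
    exact (sub_eq_zero.1 this).symm
  have h4 := (mul_eq_zero.1 h1).resolve_right h3
  rw [h4, mul_zero, mul_zero]

theorem ker_diag_twin (hq : 1 ≤ q) (t : Typ q) {j l : Fin 2 × ZMod q} (hlj : l ≠ j)
    (h : vec t l = vec t j) : ker t t j l ≠ 0 := by
  rw [ker_diag hq, if_neg hlj, h]
  have h2 : ∀ u ∈ range q, (-vec t j) ^ u * (-vec t j) ^ (q - 1 - u) =
      (-vec t j) ^ (q - 1) := by
    intro u hu
    rw [← pow_add]
    congr 1
    have := Finset.mem_range.1 hu
    omega
  rw [Finset.sum_congr rfl h2, Finset.sum_const, Finset.card_range, nsmul_eq_mul]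
  have hq0 : (q : ℂ) ≠ 0 := Nat.cast_ne_zero.2 (by omega)
  refine mul_ne_zero (mul_ne_zero hq0 (pow_ne_zero _ (by norm_num))) (mul_ne_zero ?_
    (mul_ne_zero hq0 (pow_ne_zero _ (neg_ne_zero.2 (vec_ne t j)))))
  exact_mod_cast Nat.factorial_ne_zero _

/-- the twin column -/
def twin (t : Typ q) (j : Fin 2 × ZMod q) : Fin 2 × ZMod q :=
  (1 - j.1, (t (1 - j.1)).symm (t j.1 j.2))

theorem vec_twin (t : Typ q) (j : Fin 2 × ZMod q) : vec t (twin t j) = vec t j := by
  show ZMod.stdAddChar (t (1 - j.1) ((t (1 - j.1)).symm (t j.1 j.2))) = _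
  rw [Equiv.apply_symm_apply]
  rfl

theorem twin_ne (t : Typ q) (j : Fin 2 × ZMod q) : twin t j ≠ j := by
  intro h
  have h1 : 1 - j.1 = j.1 := congrArg Prod.fst h
  revert h1
  generalize j.1 = i
  fin_cases i <;> decide

theorem eq_twin (t : Typ q) {j l : Fin 2 × ZMod q} (hlj : l ≠ j) (h : vec t l = vec t j) :
    l = twin t j := by
  have h1 : t l.1 l.2 = t j.1 j.2 := ZMod.injective_stdAddChar h
  have h2 : l.1 = 1 - j.1 := by
    by_contra hne
    have h3 : l.1 = j.1 := by
      revert hne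
      generalize l.1 = i
      generalize j.1 = i'
      fin_cases i <;> fin_cases i' <;> decide
    apply hlj
    refine Prod.ext h3 ?_
    rw [h3] at h1
    exact (t j.1).injective h1
  refine Prod.ext h2 ?_
  show l.2 = (t (1 - j.1)).symm (t j.1 j.2)
  rw [← h1, h2, Equiv.symm_apply_apply]

/-- the diagonal blocks are invertible -/
theorem ker_inj (hq : 1 ≤ q) (t : Typ q) (z : Fin 2 × ZMod q → ℂ)
    (h : ∀ j, ∑ l, z l * ker t t j l = 0) : z = 0 := by
  have h1 : ∀ j, z (twin t j) = 0 := by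
    intro j
    have h2 := h j
    rw [Finset.sum_eq_single (twin t j)] at h2
    · exact (mul_eq_zero.1 h2).resolve_right (ker_diag_twin hq t (twin_ne t j) (vec_twin t j))
    · intro l _ hl
      by_cases hv : vec t l = vec t j
      · by_cases hlj : l = j
        · subst hlj
          rw [ker_diag hq, if_pos rfl, mul_zero, mul_zero]
        · exact absurd (eq_twin t hlj hv) hl
      · rw [ker_diag_ne hq t hv, mul_zero]
    · intro h'
      exact absurd (Finset.mem_univ _) h'
  funext l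
  have h3 : twin t (twin t l) = l := by
    have h4 : vec t l = vec t (twin t l) := (vec_twin t l).symm
    exact (eq_twin t (twin_ne t l).symm h4).symm
  rw [← h3]
  exact h1 _

end L5helper61.DC
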