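import Pool.Agent.L5helper61.DC.Ker

/-! The explicit nondegenerate critical points of one block. -/

set_option autoImplicit false
set_option linter.unusedSectionVars false
set_option synthInstance.maxSize 1000

namespace L5helper61.DC

open Finset MvPolynomial L5helper59.DC

variable {q : ℕ} [NeZero q]

/-- the row at a point -/
noncomputable def row {n : ℕ} (Θ : Fin n → Equiv.Perm (Typ q)) (i : Fin n × Typ q) :
    Fin 2 × ZMod q → ℂ := vec (Θ i.1 i.2)

/-- the point -/
noncomputable def pt {n : ℕ} (Θ : Fin n → Equiv.Perm (Typ q)) :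
    (Fin n × Typ q) × (Fin 2 × ZMod q) → ℂ := fun v => row Θ v.1 v.2

theorem pt_inj {n : ℕ} : Function.Injective (pt (q := q) (n := n)) := by
  intro Θ Θ' h
  funext ν
  ext1 a
  apply vec_inj
  funext c
  exact congrFun h ((ν, a), c)

/-- the linear forms of the rows -/
noncomputable def lf {n : ℕ} (Θ : Fin n → Equiv.Perm (Typ q)) (i : Fin n × Typ q) :
    MvPolynomial (Fin 2 × ZMod q) ℂ := lin (row Θ i)

theorem esr_eq {n : ℕ} (Θ : Fin n → Equiv.Perm (Typ q)) (T : Finset (Fin n × Typ q)) (r : ℕ) :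
    esr T r (row Θ) = es (lf Θ) T r := rfl

theorem lin_smul (z : ℂ) (a : Fin 2 × ZMod q → ℂ) : lin (fun c => z * a c) = C z * lin a := by
  simp only [lin, Finset.mul_sum, C_mul, mul_assoc]

/-- the row permutation given by the multiplication with the root of unity -/
def rowE {n : ℕ} (Θ : Fin n → Equiv.Perm (Typ q)) : Equiv.Perm (Fin n × Typ q) where
  toFun i := (i.1, (Θ i.1).symm (shiftE q (Θ i.1 i.2)))
  invFun i := (i.1, (Θ i.1).symm ((shiftE q).symm (Θ i.1 i.2)))
  left_inv i := by simp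
  right_inv i := by simp

theorem lf_rowE {n : ℕ} (Θ : Fin n → Equiv.Perm (Typ q)) (i : Fin n × Typ q) :
    lf Θ (rowE Θ i) = C (zt q) * lf Θ i := by
  have h1 : row Θ (rowE Θ i) = fun c => zt q * row Θ i c := by
    funext c
    show vec (Θ i.1 ((Θ i.1).symm (shiftE q (Θ i.1 i.2)))) c = _
    rw [Equiv.apply_symm_apply, shiftE_apply]
    exact vec_shift _ c
  rw [lf, h1, lin_smul]
  rfl

theorem es_lf {n : ℕ} (Θ : Fin n → Equiv.Perm (Typ q)) (b : ℕ) (h0 : 0 < b) (hb : b < q) :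
    es (lf Θ) univ b = 0 := by
  refine es_eq_zero (rowE Θ) (lf_rowE Θ) fun h => zt_pow h0 hb ?_
  rw [← map_pow, ← C_1] at h
  exact C_injective _ _ h

/-- the row permutation to the standard point -/
def rowT {n : ℕ} (Θ : Fin n → Equiv.Perm (Typ q)) : Equiv.Perm (Fin n × Typ q) where
  toFun i := (i.1, Θ i.1 i.2)
  invFun i := (i.1, (Θ i.1).symm i.2)
  left_inv i := by simp
  right_inv i := by simp

theorem es_lf_eq {n : ℕ} (Θ : Fin n → Equiv.Perm (Typ q)) (b : ℕ) :
    es (lf Θ) univ b = es (lf (1 : Fin n → Equiv.Perm (Typ q))) univ b := by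
  rw [← es_comp (lf (1 : Fin n → Equiv.Perm (Typ q))) (rowT Θ)]
  rfl

/-- the first derivatives -/
theorem grad {n : ℕ} (hq : 1 ≤ q) (Θ : Fin n → Equiv.Perm (Typ q)) (i : Fin n × Typ q)
    (j : Fin 2 × ZMod q) :
    sqf (q + 1) (X j * esr (univ.erase i) q (row Θ)) =
      sqT univ (q + 1) (X j * es (lf (1 : Fin n → Equiv.Perm (Typ q))) univ q) +
      (-1) ^ q * ((q.factorial : ℂ) * (es (vec (1 : Typ q)) univ q + (-1) ^ q)) := by
  rw [sqf_eq, esr_eq, es_erase_q (es_lf Θ) hq i, mul_add, sqT_add, es_lf_eq]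
  congr 1
  exact grad_diag hq (Θ i.1 i.2) j

/-- the second derivatives -/
theorem hess {n : ℕ} (hq : 1 ≤ q) (Θ : Fin n → Equiv.Perm (Typ q)) {i k : Fin n × Typ q}
    (hik : k ≠ i) (j l : Fin 2 × ZMod q) :
    sqf (q + 1) (X l * (X j * esr ((univ.erase i).erase k) (q - 1) (row Θ))) =
      ker (Θ i.1 i.2) (Θ k.1 k.2) j l := by
  rw [sqf_eq, esr_eq, es_erase_erase (es_lf Θ) (by omega) hik, Nat.sub_add_cancel hq]
  rfl

/-- the matrix of the kernel -/
noncomputable def KM (q : ℕ) [NeZero q] :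
    Matrix (Typ q × (Fin 2 × ZMod q)) (Typ q × (Fin 2 × ZMod q)) ℂ :=
  Matrix.of fun v v' => ker v.1 v'.1 v.2 v'.2

/-- its diagonal blocks -/
noncomputable def DM (q : ℕ) [NeZero q] :
    Matrix (Typ q × (Fin 2 × ZMod q)) (Typ q × (Fin 2 × ZMod q)) ℂ :=
  Matrix.of fun v v' => if v'.1 = v.1 then ker v.1 v.1 v.2 v'.2 else 0

theorem det_DM (hq : 1 ≤ q) : (-DM q).det ≠ 0 := by
  intro h
  obtain ⟨v, hv, h1⟩ := Matrix.exists_mulVec_eq_zero_iff.2 h
  apply hv
  funext w
  have h2 : (fun l => v (w.1, l)) = 0 := by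
    refine ker_inj hq w.1 _ fun j => ?_
    have h3 := congrFun h1 (w.1, j)
    rw [Matrix.neg_mulVec, Pi.neg_apply, Pi.zero_apply, neg_eq_zero, Matrix.mulVec, dotProduct,
      Fintype.sum_prod_type, Finset.sum_eq_single w.1] at h3
    · rw [← h3]
      refine Finset.sum_congr rfl fun l _ => ?_
      simp only [DM, Matrix.of_apply, if_true]
      ring
    · intro b _ hb
      refine Finset.sum_eq_zero fun l _ => ?_
      simp only [DM, Matrix.of_apply, if_neg hb, zero_mul]
    · intro h'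
      exact absurd (Finset.mem_univ _) h'
  exact congrFun h2 w.2

/-- the exceptional multiplicities -/
theorem exists_B (hq : 1 ≤ q) : ∃ B : Finset ℕ, B.card ≤ (q.factorial) ^ 2 * (2 * q) ∧
    ∀ n : ℕ, n ∉ B → ((n : ℂ) • KM q - DM q).det ≠ 0 := by
  classical
  set P : Polynomial ℂ := Matrix.det ((Polynomial.X : Polynomial ℂ) • (KM q).map Polynomial.C +
    (-DM q).map Polynomial.C) with hP
  have hP0 : P ≠ 0 := by
    intro h
    have h1 := Polynomial.coeff_det_X_add_C_zero (KM q) (-DM q)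
    rw [← hP, h, Polynomial.coeff_zero] at h1
    exact det_DM hq h1.symm
  have hcard : Fintype.card (Typ q × (Fin 2 × ZMod q)) = (q.factorial) ^ 2 * (2 * q) := by
    rw [Fintype.card_prod, Fintype.card_prod, Fintype.card_fin, ZMod.card, Fintype.card_pi,
      Finset.prod_const, Finset.card_univ, Fintype.card_fin, Fintype.card_perm, ZMod.card]
  have heval : ∀ n : ℕ, P.eval (n : ℂ) = ((n : ℂ) • KM q - DM q).det := by
    intro n
    have h1 := (Polynomial.evalRingHom (n : ℂ)).map_det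
      ((Polynomial.X : Polynomial ℂ) • (KM q).map Polynomial.C + (-DM q).map Polynomial.C)
    rw [← hP] at h1
    rw [← Polynomial.coe_evalRingHom, h1]
    congr 1
    ext v w
    simp only [RingHom.mapMatrix_apply, Matrix.map_apply, Matrix.add_apply, Matrix.smul_apply,
      Matrix.sub_apply, Matrix.neg_apply, smul_eq_mul, map_add, map_neg,
      Polynomial.coe_evalRingHom]
    rw [sub_eq_add_neg, Polynomial.eval_mul, Polynomial.eval_X, Polynomial.eval_C,
      Polynomial.eval_neg, Polynomial.eval_C]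
  refine ⟨P.roots.toFinset.preimage (Nat.cast : ℕ → ℂ) Nat.cast_injective.injOn, ?_, ?_⟩
  · calc (P.roots.toFinset.preimage (Nat.cast : ℕ → ℂ) Nat.cast_injective.injOn).card
        ≤ P.roots.toFinset.card := by
          refine Finset.card_le_card_of_injOn (Nat.cast : ℕ → ℂ) (fun x hx => ?_)
            Nat.cast_injective.injOn
          exact Finset.mem_preimage.1 hx
      _ ≤ Multiset.card P.roots := Multiset.toFinset_card_le _
      _ ≤ P.natDegree := P.card_roots'
      _ ≤ Fintype.card (Typ q × (Fin 2 × ZMod q)) :=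
          Polynomial.natDegree_det_X_add_C_le (KM q) (-DM q)
      _ = _ := hcard
  · intro n hn h0
    apply hn
    rw [Finset.mem_preimage, Multiset.mem_toFinset, Polynomial.mem_roots hP0,
      Polynomial.IsRoot.def, heval, h0]

/-- **nondegeneracy** -/
theorem nondeg (hq : 1 ≤ q) {n : ℕ} (hn : ((n : ℂ) • KM q - DM q).det ≠ 0)
    (Θ : Fin n → Equiv.Perm (Typ q)) (z : (Fin n × Typ q) × (Fin 2 × ZMod q) → ℂ)
    (h : ∀ i j, ∑ k, ∑ l, z (k, l) * (if k = i then 0 else ker (Θ i.1 i.2) (Θ k.1 k.2) j l) = 0) :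
    z = 0 := by
  classical
  -- the new coordinates
  let z' : Fin n → Typ q → (Fin 2 × ZMod q) → ℂ := fun ν a l => z ((ν, (Θ ν).symm a), l)
  have h1 : ∀ ν a j, ∑ ν', ∑ a', ∑ l, z' ν' a' l * ker a a' j l =
      ∑ l, z' ν a l * ker a a j l := by
    intro ν a j
    have h2 := h (ν, (Θ ν).symm a) j
    have h3 : ∀ k : Fin n × Typ q, ∑ l, z (k, l) * (if k = (ν, (Θ ν).symm a) then 0 else
        ker (Θ ν ((Θ ν).symm a)) (Θ k.1 k.2) j l) =
        ∑ l, z (k, l) * ker a (Θ k.1 k.2) j l -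
          (if k = (ν, (Θ ν).symm a) then ∑ l, z (k, l) * ker a (Θ k.1 k.2) j l else 0) := by
      intro k
      split_ifs with hk
      · simp
      · rw [sub_zero, Equiv.apply_symm_apply]
    rw [Finset.sum_congr rfl fun k _ => h3 k, Finset.sum_sub_distrib, Finset.sum_ite_eq',
      if_pos (Finset.mem_univ _), sub_eq_zero, Equiv.apply_symm_apply] at h2
    rw [← h2, Fintype.sum_prod_type]
    refine Finset.sum_congr rfl fun ν' _ => ?_
    rw [← Equiv.sum_comp (Θ ν')]
    refine Finset.sum_congr rfl fun a' _ => ?_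
    refine Finset.sum_congr rfl fun l _ => ?_
    show z ((ν', (Θ ν').symm (Θ ν' a')), l) * _ = _
    rw [Equiv.symm_apply_apply]
  let Z : Typ q × (Fin 2 × ZMod q) → ℂ := fun v => ∑ ν, z' ν v.1 v.2
  have h4 : ∀ a j, ∑ ν', ∑ a', ∑ l, z' ν' a' l * ker a a' j l = ((KM q).mulVec Z) (a, j) := by
    intro a j
    rw [Matrix.mulVec, dotProduct, Fintype.sum_prod_type, Finset.sum_comm]
    refine Finset.sum_congr rfl fun a' _ => ?_
    rw [Finset.sum_comm]
    refine Finset.sum_congr rfl fun l _ => ?_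
    show _ = ker a a' j l * ∑ ν, z' ν a' l
    rw [Finset.mul_sum]
    exact Finset.sum_congr rfl fun ν _ => mul_comm _ _
  have h5 : ∀ a j, ∑ ν, ∑ l, z' ν a l * ker a a j l = ((DM q).mulVec Z) (a, j) := by
    intro a j
    rw [Matrix.mulVec, dotProduct, Fintype.sum_prod_type, Finset.sum_eq_single a]
    · rw [Finset.sum_comm]
      refine Finset.sum_congr rfl fun l _ => ?_
      show _ = (if a = a then ker a a j l else 0) * ∑ ν, z' ν a l
      rw [if_pos rfl, Finset.mul_sum]
      exact Finset.sum_congr rfl fun ν _ => mul_comm _ _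
    · intro b _ hb
      refine Finset.sum_eq_zero fun l _ => ?_
      show (if b = a then ker a a j l else 0) * _ = 0
      rw [if_neg hb, zero_mul]
    · intro h'
      exact absurd (Finset.mem_univ _) h'
  have hZ : Z = 0 := by
    by_contra hne
    apply hn
    refine Matrix.exists_mulVec_eq_zero_iff.1 ⟨Z, hne, ?_⟩
    funext v
    rw [Matrix.sub_mulVec, Matrix.smul_mulVec, Pi.sub_apply, Pi.smul_apply, Pi.zero_apply,
      sub_eq_zero, ← h4 v.1 v.2, ← h5 v.1 v.2, ← Finset.sum_congr rfl fun ν _ => h1 ν v.1 v.2,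
      Finset.sum_const, Finset.card_univ, Fintype.card_fin, smul_eq_mul, nsmul_eq_mul]
  have h6 : ∀ ν a, z' ν a = 0 := by
    intro ν a
    refine ker_inj hq a _ fun j => ?_
    rw [← h1 ν a j, h4, hZ, Matrix.mulVec_zero, Pi.zero_apply]
  funext v
  obtain ⟨⟨ν, a⟩, l⟩ := v
  have h7 := congrFun (h6 ν (Θ ν a)) l
  have h8 : z ((ν, (Θ ν).symm (Θ ν a)), l) = 0 := h7
  rwa [Equiv.symm_apply_apply] at h8

theorem block_points_of
    (H1 : ∀ {ρ γ : Type} [Fintype ρ] [Fintype γ] [DecidableEq ρ] [DecidableEq γ]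
      (r : ℕ) (p : ρ × γ → ℂ) (i : ρ) (j : γ),
      eval p (pderiv (i, j) (sig (r + 1) (gen ρ γ))) =
        sqf (r + 1) (X j * esr (univ.erase i) r (fun i j => p (i, j))))
    (H2 : ∀ {ρ γ : Type} [Fintype ρ] [Fintype γ] [DecidableEq ρ]
      [DecidableEq γ] (r : ℕ) (p : ρ × γ → ℂ) (i k : ρ) (j l : γ),
      eval p (pderiv (k, l) (pderiv (i, j) (sig (r + 2) (gen ρ γ)))) =
        if k = i then 0 else
          sqf (r + 2) (X l * (X j * esr ((univ.erase i).erase k) r (fun i j => p (i, j)))))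
    (q : ℕ) [NeZero q] (hq : 2 ≤ q) :
    ∃ B : Finset ℕ, B.card ≤ (q.factorial) ^ 2 * (2 * q) ∧ ∀ n : ℕ, 2 ≤ n → n ∉ B →
      ∃ (c : (Fin n × Typ q) × (Fin 2 × ZMod q) → ℂ)
        (S : Finset ((Fin n × Typ q) × (Fin 2 × ZMod q) → ℂ)),
        S.card = ((q.factorial) ^ 2).factorial ^ n ∧
        (∀ p ∈ S, ∀ v, eval p (pderiv v (sig (q + 1) (gen (Fin n × Typ q) (Fin 2 × ZMod q)))) =
          c v) ∧
        (∀ p ∈ S, ∀ z : (Fin n × Typ q) × (Fin 2 × ZMod q) → ℂ,
          (∀ v, ∑ v', z v' * eval p (pderiv v' (pderiv v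
            (sig (q + 1) (gen (Fin n × Typ q) (Fin 2 × ZMod q))))) = 0) → z = 0) := by
  classical
  obtain ⟨B, hB, hB'⟩ := exists_B (q := q) (by omega)
  refine ⟨B, hB, fun n _ hn => ?_⟩
  have hdet := hB' n hn
  refine ⟨fun v => sqT univ (q + 1) (X v.2 * es (lf (1 : Fin n → Equiv.Perm (Typ q))) univ q) +
      (-1) ^ q * ((q.factorial : ℂ) * (es (vec (1 : Typ q)) univ q + (-1) ^ q)),
    Finset.univ.image (pt (q := q) (n := n)), ?_, ?_, ?_⟩
  · rw [Finset.card_image_of_injective _ pt_inj, Finset.card_univ, Fintype.card_pi,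
      Finset.prod_const, Finset.card_univ, Fintype.card_fin, Fintype.card_perm, Fintype.card_pi,
      Finset.prod_const, Finset.card_univ, Fintype.card_fin, Fintype.card_perm, ZMod.card]
  · intro p hp v
    obtain ⟨Θ, _, rfl⟩ := Finset.mem_image.1 hp
    obtain ⟨i, j⟩ := v
    rw [H1]
    exact grad (by omega) Θ i j
  · intro p hp z hz
    obtain ⟨Θ, _, rfl⟩ := Finset.mem_image.1 hp
    refine nondeg (by omega) hdet Θ z fun i j => ?_
    have hz' := hz (i, j)
    rw [Fintype.sum_prod_type] at hz'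
    refine Eq.trans ?_ hz'
    refine Finset.sum_congr rfl fun k _ => ?_
    refine Finset.sum_congr rfl fun l _ => ?_
    congr 1
    have h1 : q + 1 = (q - 1) + 2 := by omega
    have h2 := H2 (q - 1) (pt Θ) i k j l
    rw [← h1] at h2
    rw [h2]
    split_ifs with hik
    · rfl
    · exact (hess (by omega) Θ hik j l).symm

end L5helper61.DC
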